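import Pool.Agent.V5helper2.NR.Stm3

set_option autoImplicit false
open Finset Filter Topology MeasureTheory AddCircle
open scoped ComplexConjugate

namespace Pool.Agent.V5helper74.NR

open Pool.Agent.Helper498.NCR Pool.Agent.V5helper2.CF Pool.Agent.V5helper2.NR

noncomputable section

lemma norm_loc_le (t : Ci) (H : ℕ) (a : ℕ → ℂ) (ha : ∀ n, ‖a n‖ ≤ 1) (hH : 1 ≤ H) (n : ℕ) :
    ‖loc t H a n‖ ≤ 1 := by
  have hH0 : (0 : ℝ) < H := by exact_mod_cast hH
  rw [loc, norm_mul, norm_inv, Complex.norm_natCast, inv_mul_le_iff₀ hH0, mul_one]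
  refine (norm_sum_le _ _).trans ?_
  refine (Finset.sum_le_sum (g := fun _ => (1 : ℝ)) fun h _ => ?_).trans ?_
  · rw [norm_mul, norm_pow, fourier_pt_norm, one_pow, one_mul]
    exact ha _
  · simp

lemma loc_shift (t : Ci) (H : ℕ) (a : ℕ → ℂ) (ha : ∀ n, ‖a n‖ ≤ 1) (hH : 1 ≤ H) (n i : ℕ) :
    ‖loc t H a (n + i) - (fourier 1 t) ^ i * loc t H a n‖ ≤ 2 * i / H := by
  have hH0 : (0 : ℝ) < H := by exact_mod_cast hH
  set z : ℂ := fourier (-1) t with hz
  set w : ℂ := fourier 1 t with hw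
  have hz1 : ‖z‖ = 1 := fourier_pt_norm _ _
  have hw1 : ‖w‖ = 1 := fourier_pt_norm _ _
  have hwz : w * z = 1 := by
    rw [hw, hz, ← fourier_add]
    simp
  have h1 := shift_one (fun h => z ^ h * a (n + h)) 1 (fun k => by
    rw [norm_mul, norm_pow, hz1, one_pow, one_mul]
    exact ha _) H i
  have h2 : loc t H a (n + i) - w ^ i * loc t H a n =
      -(w ^ i * ((H : ℂ)⁻¹ * (∑ h ∈ range H, z ^ h * a (n + h) -
        ∑ h ∈ range H, z ^ (h + i) * a (n + (h + i))))) := by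
    have h3 : loc t H a (n + i) = w ^ i * ((H : ℂ)⁻¹ * ∑ h ∈ range H, z ^ (h + i) * a (n + (h + i))) := by
      rw [loc, mul_left_comm, Finset.mul_sum (range H) _ (w ^ i)]
      congr 1
      refine Finset.sum_congr rfl fun h _ => ?_
      have h4 : w ^ i * z ^ i = 1 := by rw [← mul_pow, hwz, one_pow]
      rw [pow_add, show n + i + h = n + (h + i) by ring]
      calc z ^ h * a (n + (h + i)) = (w ^ i * z ^ i) * (z ^ h * a (n + (h + i))) := by rw [h4, one_mul]
        _ = _ := by ring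
    rw [h3, loc]
    ring
  rw [h2, norm_neg, norm_mul, norm_pow, hw1, one_pow, one_mul, norm_mul, norm_inv, Complex.norm_natCast,
    inv_mul_le_iff₀ hH0]
  refine h1.trans (le_of_eq ?_)
  field_simp

theorem t_SLW : S_SLW := by
  intro a b c ha hb hc t H J N hH hJ hN hJN
  have hH0 : (0 : ℝ) < H := by exact_mod_cast hH
  have hJ0 : (0 : ℝ) < J := by exact_mod_cast hJ
  have hN0 : (0 : ℝ) < N := by exact_mod_cast hN
  set L : ℕ → ℂ := loc t H a with hL
  have hL1 : ∀ n, ‖L n‖ ≤ 1 := norm_loc_le t H a ha hH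
  set F : ℕ → ℕ → ℂ := fun m n => L m * b (m + n) * c (m + 2 * n) with hF
  have hF1 : ∀ m n, ‖F m n‖ ≤ 1 := by
    intro m n
    rw [hF]
    simp only [norm_mul]
    exact mul_le_one₀ (mul_le_one₀ (hL1 _) (norm_nonneg _) (hb _)) (norm_nonneg _) (hc _)
  set X : ℕ → ℝ := fun k => ‖(J : ℂ)⁻¹ * ∑ j ∈ range J, (fourier 2 t) ^ j * b (k + j)‖ with hX
  have hX0 : ∀ k, 0 ≤ X k := fun k => norm_nonneg _
  have hsh := avg_shift F hF1 N J (2 * J) hN hJ (fun j => 2 * j) (fun j => J - j) (fun j hj => by omega)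
  set G : ℕ → ℕ → ℂ := fun m n => (J : ℂ)⁻¹ * ∑ j ∈ range J, F (m + 2 * j) (n + (J - j)) with hG
  have hGb : ∀ m n, ‖G m n‖ ≤ 4 * J / H + X (m + n + J) := by
    intro m n
    have e1 : G m n = c (m + 2 * n + 2 * J) * ((J : ℂ)⁻¹ * ∑ j ∈ range J,
        L (m + 2 * j) * b (m + n + J + j)) := by
      rw [hG]
      simp only
      rw [mul_left_comm, Finset.mul_sum (range J) _ (c _)]
      congr 1
      refine Finset.sum_congr rfl fun j hj => ?_
      rw [Finset.mem_range] at hj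
      rw [hF]
      simp only
      rw [show m + 2 * j + (n + (J - j)) = m + n + J + j by omega,
        show m + 2 * j + 2 * (n + (J - j)) = m + 2 * n + 2 * J by omega]
      ring
    have e2 : (J : ℂ)⁻¹ * ∑ j ∈ range J, L (m + 2 * j) * b (m + n + J + j) =
        (J : ℂ)⁻¹ * ∑ j ∈ range J, (L (m + 2 * j) - (fourier 1 t) ^ (2 * j) * L m) * b (m + n + J + j) +
        L m * ((J : ℂ)⁻¹ * ∑ j ∈ range J, (fourier 2 t) ^ j * b (m + n + J + j)) := by
      rw [mul_left_comm (L m), Finset.mul_sum (range J) _ (L m), ← mul_add, ← Finset.sum_add_distrib]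
      congr 1
      refine Finset.sum_congr rfl fun j _ => ?_
      have e3 : (fourier 1 t : ℂ) ^ (2 * j) = (fourier 2 t : ℂ) ^ j := by
        rw [pow_mul]
        congr 1
        rw [sq, ← fourier_add]
        norm_num
      rw [e3]
      ring
    rw [e1, norm_mul]
    have h1 : ‖(J : ℂ)⁻¹ * ∑ j ∈ range J, (L (m + 2 * j) - (fourier 1 t) ^ (2 * j) * L m) *
        b (m + n + J + j)‖ ≤ 4 * J / H := by
      rw [norm_mul, norm_inv, Complex.norm_natCast, inv_mul_le_iff₀ hJ0]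
      refine (norm_sum_le _ _).trans ?_
      refine (Finset.sum_le_sum (g := fun _ => (4 * J / H : ℝ)) fun j hj => ?_).trans ?_
      · rw [Finset.mem_range] at hj
        rw [norm_mul]
        have h2 := loc_shift t H a ha hH m (2 * j)
        have h3 : (2 : ℝ) * ((2 * j : ℕ) : ℝ) / H ≤ 4 * J / H := by
          have h4 : (j : ℝ) ≤ J := by exact_mod_cast hj.le
          push_cast
          exact div_le_div_of_nonneg_right (by linarith) hH0.le
        calc ‖L (m + 2 * j) - (fourier 1 t) ^ (2 * j) * L m‖ * ‖b (m + n + J + j)‖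
            ≤ (4 * J / H) * 1 := mul_le_mul (h2.trans h3) (hb _) (norm_nonneg _) (by positivity)
          _ = 4 * J / H := mul_one _
      · simp
    have h2 : ‖(J : ℂ)⁻¹ * ∑ j ∈ range J, L (m + 2 * j) * b (m + n + J + j)‖ ≤
        4 * J / H + X (m + n + J) := by
      rw [e2]
      refine (norm_add_le _ _).trans (add_le_add h1 ?_)
      rw [norm_mul]
      exact mul_le_of_le_one_left (norm_nonneg _) (hL1 m)
    exact (mul_le_of_le_one_left (norm_nonneg _) (hc _)).trans h2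
  -- the sum of the `X`
  set S := ∑ k ∈ range (3 * N), X k with hS
  have hsum : ∀ m ∈ range N, ∑ n ∈ range N, X (m + n + J) ≤ S := by
    intro m hm
    rw [Finset.mem_range] at hm
    have h1 : ∑ n ∈ range N, X (m + n + J) = ∑ k ∈ (range N).image (fun n => m + n + J), X k := by
      rw [Finset.sum_image]
      intro x _ y _ h
      simp only at h
      omega
    rw [h1]
    refine Finset.sum_le_sum_of_subset_of_nonneg ?_ fun k _ _ => hX0 k
    intro k hk
    rw [Finset.mem_image] at hk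
    obtain ⟨n, hn, rfl⟩ := hk
    rw [Finset.mem_range] at hn ⊢
    omega
  have hGs : ‖bavg N G‖ ≤ 4 * J / H + (N : ℝ)⁻¹ * S := by
    refine (norm_bavg_le N G).trans ?_
    have h1 : ∑ m ∈ range N, ∑ n ∈ range N, ‖G m n‖ ≤ ∑ m ∈ range N, (N * (4 * J / H : ℝ) + S) := by
      refine Finset.sum_le_sum fun m hm => ?_
      calc ∑ n ∈ range N, ‖G m n‖ ≤ ∑ n ∈ range N, ((4 * J / H : ℝ) + X (m + n + J)) :=
            Finset.sum_le_sum fun n _ => hGb m n
        _ = N * (4 * J / H : ℝ) + ∑ n ∈ range N, X (m + n + J) := by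
            rw [Finset.sum_add_distrib, Finset.sum_const, Finset.card_range, nsmul_eq_mul]
        _ ≤ _ := by linarith [hsum m hm]
    rw [Finset.sum_const, Finset.card_range, nsmul_eq_mul] at h1
    calc ((N : ℝ) ^ 2)⁻¹ * ∑ m ∈ range N, ∑ n ∈ range N, ‖G m n‖
        ≤ ((N : ℝ) ^ 2)⁻¹ * (N * (N * (4 * J / H : ℝ) + S)) :=
          mul_le_mul_of_nonneg_left h1 (by positivity)
      _ = 4 * J / H + (N : ℝ)⁻¹ * S := by field_simp
  -- Cauchy-Schwarz
  have hcs : (N : ℝ)⁻¹ * S ≤ 3 * Real.sqrt (((3 * N : ℕ) : ℝ)⁻¹ * ∑ k ∈ range (3 * N), X k ^ 2) := by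
    have h1 : S ^ 2 ≤ ((3 * N : ℕ) : ℝ) * ∑ k ∈ range (3 * N), X k ^ 2 := by
      have h2 := sq_sum_le_card_mul_sum_sq (s := range (3 * N)) (f := X)
      rwa [Finset.card_range] at h2
    have h3N : (0 : ℝ) < ((3 * N : ℕ) : ℝ) := by positivity
    have h2 : (((3 * N : ℕ) : ℝ)⁻¹ * S) ≤
        Real.sqrt (((3 * N : ℕ) : ℝ)⁻¹ * ∑ k ∈ range (3 * N), X k ^ 2) := by
      apply Real.le_sqrt_of_sq_le
      rw [mul_pow]
      calc (((3 * N : ℕ) : ℝ)⁻¹) ^ 2 * S ^ 2
          ≤ (((3 * N : ℕ) : ℝ)⁻¹) ^ 2 * (((3 * N : ℕ) : ℝ) * ∑ k ∈ range (3 * N), X k ^ 2) :=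
            mul_le_mul_of_nonneg_left h1 (by positivity)
        _ = ((3 * N : ℕ) : ℝ)⁻¹ * ∑ k ∈ range (3 * N), X k ^ 2 := by
            field_simp
    calc (N : ℝ)⁻¹ * S = 3 * (((3 * N : ℕ) : ℝ)⁻¹ * S) := by
          push_cast
          field_simp
      _ ≤ _ := by linarith
  have hfin : ‖bavg N F‖ ≤ ‖bavg N F - bavg N G‖ + ‖bavg N G‖ := by
    have := norm_add_le (bavg N F - bavg N G) (bavg N G)
    rwa [sub_add_cancel] at this
  refine hfin.trans ?_
  have hsh' : ‖bavg N F - bavg N G‖ ≤ 4 * J / N := by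
    refine hsh.trans (le_of_eq ?_)
    push_cast
    ring
  linarith

end

end Pool.Agent.V5helper74.NR
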